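import Mathlib

/-!
# Complete intersections in (complex torus) × (product of projective spaces): definitions
-/

set_option autoImplicit false

open MvPolynomial Filter Topology

namespace Pool.Agent.H88.Abund

/-- The vector space `ℂ^g`. -/
abbrev VS (g : ℕ) : Type := Fin g → ℂ

/-- The index set of the homogeneous coordinates `x_{i,a}`, `a = 0, …, n i`, of
`P^{n 1} × … × P^{n r}`. -/
abbrev Co {r : ℕ} (n : Fin r → ℕ) : Type := Σ i : Fin r, Fin (n i + 1)

/-- The vectors of homogeneous coordinates, `∏ ℂ^{n i + 1}`. -/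
abbrev Xs {r : ℕ} (n : Fin r → ℕ) : Type := ∀ i : Fin r, Fin (n i + 1) → ℂ

variable {g r m : ℕ} {n : Fin r → ℕ}

/-- The value of a polynomial in the homogeneous coordinates. -/
noncomputable def val (x : Xs n) (P : MvPolynomial (Co n) ℂ) : ℂ :=
  eval (fun q : Co n => x q.1 q.2) P

/-- `P` is multihomogeneous of multidegree `d`. -/
def IsMultihom (d : Fin r → ℕ) (P : MvPolynomial (Co n) ℂ) : Prop :=
  ∀ α, coeff α P ≠ 0 → ∀ i, ∑ a, α ⟨i, a⟩ = d i

/-- A factor of automorphy `e(l, z) = exp (lin l z + cst l)` of the lattice `Λ`. -/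
structure Factor (Λ : Submodule ℤ (VS g)) where
  lin : Λ → (VS g →ₗ[ℂ] ℂ)
  cst : Λ → ℂ

/-- the factor of automorphy as a function -/
noncomputable def Factor.e {Λ : Submodule ℤ (VS g)} (φ : Factor Λ) (l : Λ) (z : VS g) : ℂ :=
  Complex.exp (φ.lin l z + φ.cst l)

/-- `θ` is a theta function for `φ`: a holomorphic section of the line bundle on `ℂ^g / Λ`
defined by `φ`. -/
structure IsTheta {Λ : Submodule ℤ (VS g)} (φ : Factor Λ) (θ : VS g → ℂ) : Prop where
  holo : Differentiable ℂ θ
  quasi : ∀ (l : Λ) (z : VS g), θ (z + l) = φ.e l z * θ z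

/-- `F` is a holomorphic section of `L ⊠ O(d)`, `L` given by `φ`: a multihomogeneous polynomial of
multidegree `d` whose coefficients are theta functions for `φ`. -/
structure IsEquation {Λ : Submodule ℤ (VS g)} (φ : Factor Λ) (d : Fin r → ℕ)
    (F : VS g → MvPolynomial (Co n) ℂ) : Prop where
  theta : ∀ α, IsTheta φ fun z => coeff α (F z)
  hom : ∀ z, IsMultihom d (F z)

lemma val_eq (x : Xs n) (P : MvPolynomial (Co n) ℂ) :
    val x P = ∑ α ∈ P.support, coeff α P * ∏ i, ∏ a, x i a ^ α ⟨i, a⟩ := by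
  unfold val
  rw [eval_eq']
  refine Finset.sum_congr rfl fun α _ => ?_
  rw [Fintype.prod_sigma]

/-- multihomogeneity -/
lemma val_smul {d : Fin r → ℕ} {P : MvPolynomial (Co n) ℂ} (hP : IsMultihom d P)
    (t : Fin r → ℂ) (x : Xs n) :
    val (fun i => t i • x i) P = (∏ i, t i ^ d i) * val x P := by
  rw [val_eq, val_eq, Finset.mul_sum]
  refine Finset.sum_congr rfl fun α hα => ?_
  have h := hP α (mem_support_iff.1 hα)
  have e : ∏ i, ∏ a, (t i • x i) a ^ α ⟨i, a⟩ =
      (∏ i, t i ^ d i) * ∏ i, ∏ a, x i a ^ α ⟨i, a⟩ := by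
    rw [← Finset.prod_mul_distrib]
    refine Finset.prod_congr rfl fun i _ => ?_
    rw [← h i, ← Finset.prod_pow_eq_pow_sum, ← Finset.prod_mul_distrib]
    refine Finset.prod_congr rfl fun a _ => ?_
    rw [Pi.smul_apply, smul_eq_mul, mul_pow]
  rw [e]
  ring

/-- no dependence on the coordinates of degree `0` -/
lemma val_congr {d : Fin r → ℕ} {P : MvPolynomial (Co n) ℂ} (hP : IsMultihom d P)
    (x y : Xs n) (h : ∀ i, d i ≠ 0 → x i = y i) : val x P = val y P := by
  rw [val_eq, val_eq]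
  refine Finset.sum_congr rfl fun α hα => ?_
  have h1 := hP α (mem_support_iff.1 hα)
  congr 1
  refine Finset.prod_congr rfl fun i _ => ?_
  by_cases hi : d i = 0
  · have h2 := h1 i
    rw [hi, Finset.sum_eq_zero_iff] at h2
    refine Finset.prod_congr rfl fun a _ => ?_
    rw [h2 a (Finset.mem_univ a), pow_zero, pow_zero]
  · rw [h i hi]

/-- the polynomial in the `i`-th block of coordinates -/
noncomputable def block (i : Fin r) (x : Xs n) (P : MvPolynomial (Co n) ℂ) :
    MvPolynomial (Fin (n i + 1)) ℂ :=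
  ∑ α ∈ P.support, monomial (Finsupp.equivFunOnFinite.symm fun a => α ⟨i, a⟩)
    (coeff α P * ∏ l ∈ Finset.univ.erase i, ∏ a, x l a ^ α ⟨l, a⟩)

lemma eval_block (i : Fin r) (x : Xs n) (P : MvPolynomial (Co n) ℂ) (y : Fin (n i + 1) → ℂ) :
    eval y (block i x P) = val (Function.update x i y) P := by
  rw [val_eq, block, map_sum]
  refine Finset.sum_congr rfl fun α _ => ?_
  rw [eval_monomial, Finsupp.prod_fintype _ _ (fun _ => pow_zero _)]
  rw [← Finset.mul_prod_erase Finset.univ _ (Finset.mem_univ i), Function.update_self]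
  have e : ∏ l ∈ Finset.univ.erase i, ∏ a, (Function.update x i y) l a ^ α ⟨l, a⟩ =
      ∏ l ∈ Finset.univ.erase i, ∏ a, x l a ^ α ⟨l, a⟩ := by
    refine Finset.prod_congr rfl fun l hl => ?_
    rw [Function.update_of_ne (Finset.ne_of_mem_erase hl)]
  rw [e]
  simp only [Finsupp.equivFunOnFinite_symm_apply_apply]
  ring

lemma block_hom {d : Fin r → ℕ} {P : MvPolynomial (Co n) ℂ} (hP : IsMultihom d P) (i : Fin r)
    (x : Xs n) : (block i x P).IsHomogeneous (d i) := by
  unfold block
  apply IsHomogeneous.sum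
  intro α hα
  apply isHomogeneous_monomial
  have h := hP α (mem_support_iff.1 hα) i
  rw [Finsupp.degree_eq_sum]
  simpa using h

/-- composition with a tuple of binary forms -/
noncomputable def comp (f : ∀ i : Fin r, Fin (n i + 1) → MvPolynomial (Fin 2) ℂ)
    (P : MvPolynomial (Co n) ℂ) : MvPolynomial (Fin 2) ℂ :=
  ∑ α ∈ P.support, C (coeff α P) * ∏ i, ∏ a, f i a ^ α ⟨i, a⟩

lemma eval_comp (f : ∀ i : Fin r, Fin (n i + 1) → MvPolynomial (Fin 2) ℂ)
    (P : MvPolynomial (Co n) ℂ) (v : Fin 2 → ℂ) :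
    eval v (comp f P) = val (fun i a => eval v (f i a)) P := by
  rw [val_eq, comp, map_sum]
  refine Finset.sum_congr rfl fun α _ => ?_
  rw [map_mul, eval_C, map_prod]
  congr 1
  refine Finset.prod_congr rfl fun i _ => ?_
  rw [map_prod]
  refine Finset.prod_congr rfl fun a _ => ?_
  rw [map_pow]

lemma comp_hom {d : Fin r → ℕ} {P : MvPolynomial (Co n) ℂ} (hP : IsMultihom d P)
    {δ : Fin r → ℕ} {f : ∀ i : Fin r, Fin (n i + 1) → MvPolynomial (Fin 2) ℂ}
    (hf : ∀ i, d i ≠ 0 → ∀ a, (f i a).IsHomogeneous (δ i)) :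
    (comp f P).IsHomogeneous (∑ i, δ i * d i) := by
  unfold comp
  apply IsHomogeneous.sum
  intro α hα
  have h := hP α (mem_support_iff.1 hα)
  have h1 : (∏ i, ∏ a, f i a ^ α ⟨i, a⟩).IsHomogeneous (∑ i, δ i * d i) := by
    apply IsHomogeneous.prod
    intro i _
    by_cases hi : d i = 0
    · have h2 := h i
      rw [hi, Finset.sum_eq_zero_iff] at h2
      have h3 : ∏ a, f i a ^ α ⟨i, a⟩ = 1 := by
        apply Finset.prod_eq_one
        intro a ha
        rw [h2 a ha, pow_zero]
      rw [h3, hi, mul_zero]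
      exact isHomogeneous_one _ _
    · have h4 : δ i * d i = ∑ a, δ i * α ⟨i, a⟩ := by
        rw [← Finset.mul_sum, h i]
      rw [h4]
      apply IsHomogeneous.prod
      intro a _
      exact (hf i hi a).pow _
  simpa using (isHomogeneous_C (Fin 2) (coeff α P)).mul h1

end Pool.Agent.H88.Abund
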