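import Pool.Agent.H88.Abund.Basic
import Pool.Agent.H71.Conic.General

/-!
# Rational curves in the fibres
-/

set_option autoImplicit false

open MvPolynomial Filter Topology

namespace Pool.Agent.H88.Abund

variable {g r m : ℕ} {n : Fin r → ℕ}

lemma val_update_smul {d : Fin r → ℕ} {P : MvPolynomial (Co n) ℂ} (hP : IsMultihom d P)
    (x : Xs n) (i : Fin r) (c : ℂ) (y : Fin (n i + 1) → ℂ) :
    val (Function.update x i (c • y)) P = c ^ d i * val (Function.update x i y) P := by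
  have h := val_smul hP (fun l => if l = i then c else 1) (Function.update x i y)
  have e1 : (fun l => (if l = i then c else 1) • (Function.update x i y) l) =
      Function.update x i (c • y) := by
    funext l
    by_cases hl : l = i
    · subst hl
      simp
    · simp [hl]
  have e2 : ∏ l, (if l = i then c else 1) ^ d l = c ^ d i := by
    rw [Finset.prod_eq_single i]
    · simp
    · intro b _ hb
      simp [hb]
    · intro h; exact absurd (Finset.mem_univ i) h
  rw [e1, e2] at h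
  exact h

/-- binary forms from a parametrization of a conic or line -/
lemma exists_forms {N : ℕ} (P Q R : Fin N → ℂ) (a : Fin N)
    (hne : ∀ s : ℂ, s ≠ 0 → (P + s • Q + s ^ 2 • R) a ≠ 0)
    (s0 s2 : ℂ) (h0 : s0 ≠ 0) (h2 : s2 ≠ 0)
    (hnp : ∀ r k : ℂ, r • (P + s0 • Q + s0 ^ 2 • R) = k • (P + s2 • Q + s2 ^ 2 • R) →
      r = 0 ∧ k = 0) :
    ∃ (δ : ℕ) (f : Fin N → MvPolynomial (Fin 2) ℂ), 1 ≤ δ ∧ (∀ b, (f b).IsHomogeneous δ) ∧
      (∀ v : Fin 2 → ℂ, v ≠ 0 → ∃ b, eval v (f b) ≠ 0) ∧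
      ∀ v : Fin 2 → ℂ, v 0 ≠ 0 → v 1 ≠ 0 → ∃ (s c : ℂ), s ≠ 0 ∧ c ≠ 0 ∧
        (fun b => eval v (f b)) = c • (P + s • Q + s ^ 2 • R) := by
  -- reduction to the behaviour at the two coordinate points
  have key : ∀ (δ : ℕ) (f : Fin N → MvPolynomial (Fin 2) ℂ), 1 ≤ δ →
      (∀ b, (f b).IsHomogeneous δ) →
      (∀ v : Fin 2 → ℂ, v 0 ≠ 0 → v 1 ≠ 0 → ∃ (s c : ℂ), s ≠ 0 ∧ c ≠ 0 ∧
        (fun b => eval v (f b)) = c • (P + s • Q + s ^ 2 • R)) →
      (∀ v : Fin 2 → ℂ, v 0 ≠ 0 → v 1 = 0 → ∃ b, eval v (f b) ≠ 0) →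
      (∀ v : Fin 2 → ℂ, v 0 = 0 → v 1 ≠ 0 → ∃ b, eval v (f b) ≠ 0) →
      ∃ (δ : ℕ) (f : Fin N → MvPolynomial (Fin 2) ℂ), 1 ≤ δ ∧ (∀ b, (f b).IsHomogeneous δ) ∧
      (∀ v : Fin 2 → ℂ, v ≠ 0 → ∃ b, eval v (f b) ≠ 0) ∧
      ∀ v : Fin 2 → ℂ, v 0 ≠ 0 → v 1 ≠ 0 → ∃ (s c : ℂ), s ≠ 0 ∧ c ≠ 0 ∧
        (fun b => eval v (f b)) = c • (P + s • Q + s ^ 2 • R) := by
    intro δ f hδ hf h3 h4 h5
    refine ⟨δ, f, hδ, hf, ?_, h3⟩
    intro v hv
    by_cases hv0 : v 0 = 0
    · have hv1 : v 1 ≠ 0 := by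
        intro hv1
        apply hv
        funext i
        fin_cases i
        · exact hv0
        · exact hv1
      exact h5 v hv0 hv1
    · by_cases hv1 : v 1 = 0
      · exact h4 v hv0 hv1
      · obtain ⟨s, c, hs, hc, he⟩ := h3 v hv0 hv1
        refine ⟨a, ?_⟩
        have := congrFun he a
        change eval v (f a) = _ at this
        rw [this, Pi.smul_apply, smul_eq_mul]
        exact mul_ne_zero hc (hne s hs)
  have hom1 : ∀ A B : Fin N → ℂ, ∀ b,
      (C (A b) * X 0 + C (B b) * X 1 : MvPolynomial (Fin 2) ℂ).IsHomogeneous 1 := by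
    intro A B b
    apply IsHomogeneous.add
    · simpa using (isHomogeneous_C (Fin 2) (A b)).mul (isHomogeneous_X ℂ (0 : Fin 2))
    · simpa using (isHomogeneous_C (Fin 2) (B b)).mul (isHomogeneous_X ℂ (1 : Fin 2))
  have nez : ∀ A : Fin N → ℂ, A ≠ 0 → ∃ b, A b ≠ 0 := fun A hA => Function.ne_iff.1 hA
  by_cases hP : P = 0
  · have hQ : Q ≠ 0 := by
      intro hQ
      have := hnp (s2 ^ 2) (s0 ^ 2) (by
        rw [hP, hQ]; simp only [smul_zero, zero_add, smul_smul]; congr 1; ring)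
      exact h0 (pow_eq_zero_iff (two_ne_zero)|>.1 this.2)
    have hR : R ≠ 0 := by
      intro hR
      have := hnp s2 s0 (by
        rw [hP, hR]; simp only [smul_zero, zero_add, add_zero, smul_smul]; congr 1; ring)
      exact h0 this.2
    refine key 1 (fun b => C (Q b) * X 0 + C (R b) * X 1) le_rfl (hom1 Q R) ?_ ?_ ?_
    · intro v hv0 hv1
      refine ⟨v 1 / v 0, v 0 ^ 2 / v 1, div_ne_zero hv1 hv0,
        div_ne_zero (pow_ne_zero _ hv0) hv1, ?_⟩
      funext b
      simp only [map_add, map_mul, eval_C, eval_X, Pi.smul_apply, Pi.add_apply, smul_eq_mul, hP,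
        Pi.zero_apply]
      field_simp
      ring
    · intro v hv0 hv1
      obtain ⟨b, hb⟩ := nez Q hQ
      exact ⟨b, by simp [hv1, hb, hv0]⟩
    · intro v hv0 hv1
      obtain ⟨b, hb⟩ := nez R hR
      exact ⟨b, by simp [hv0, hb, hv1]⟩
  · by_cases hR : R = 0
    · have hQ : Q ≠ 0 := by
        intro hQ
        have := hnp 1 1 (by rw [hR, hQ]; simp)
        exact one_ne_zero this.1
      refine key 1 (fun b => C (P b) * X 0 + C (Q b) * X 1) le_rfl (hom1 P Q) ?_ ?_ ?_
      · intro v hv0 hv1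
        refine ⟨v 1 / v 0, v 0, div_ne_zero hv1 hv0, hv0, ?_⟩
        funext b
        simp only [map_add, map_mul, eval_C, eval_X, Pi.smul_apply, Pi.add_apply, smul_eq_mul, hR,
          Pi.zero_apply]
        field_simp
        ring
      · intro v hv0 hv1
        obtain ⟨b, hb⟩ := nez P hP
        exact ⟨b, by simp [hv1, hb, hv0]⟩
      · intro v hv0 hv1
        obtain ⟨b, hb⟩ := nez Q hQ
        exact ⟨b, by simp [hv0, hb, hv1]⟩
    · refine key 2 (fun b => C (P b) * X 0 ^ 2 + C (Q b) * (X 0 * X 1) + C (R b) * X 1 ^ 2)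
        (by norm_num) ?_ ?_ ?_ ?_
      · intro b
        have x0 : (X 0 : MvPolynomial (Fin 2) ℂ).IsHomogeneous 1 := isHomogeneous_X ℂ _
        have x1 : (X 1 : MvPolynomial (Fin 2) ℂ).IsHomogeneous 1 := isHomogeneous_X ℂ _
        apply IsHomogeneous.add
        · apply IsHomogeneous.add
          · simpa using (isHomogeneous_C (Fin 2) (P b)).mul (x0.pow 2)
          · simpa using (isHomogeneous_C (Fin 2) (Q b)).mul (x0.mul x1)
        · simpa using (isHomogeneous_C (Fin 2) (R b)).mul (x1.pow 2)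
      · intro v hv0 hv1
        refine ⟨v 1 / v 0, v 0 ^ 2, div_ne_zero hv1 hv0, pow_ne_zero _ hv0, ?_⟩
        funext b
        simp only [map_add, map_mul, map_pow, eval_C, eval_X, Pi.smul_apply, Pi.add_apply,
          smul_eq_mul]
        field_simp
      · intro v hv0 hv1
        obtain ⟨b, hb⟩ := nez P hP
        exact ⟨b, by simp [hv1, hb, hv0]⟩
      · intro v hv0 hv1
        obtain ⟨b, hb⟩ := nez R hR
        exact ⟨b, by simp [hv0, hb, hv1]⟩

/-- a line or conic in the fibre through a point -/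
lemma fibre_curve {d : Fin m → Fin r → ℕ} {P : Fin m → MvPolynomial (Co n) ℂ}
    (hP : ∀ j, IsMultihom (d j) (P j)) (J : Finset (Fin m)) (i : Fin r) (x : Xs n)
    (hx : x i ≠ 0) (h : ∀ j ∈ J, val x (P j) = 0) (hsum : ∑ j ∈ J, d j i ≤ n i)
    (hcard : (J.filter fun j => d j i ≠ 0).card < n i) :
    ∃ (δ : ℕ) (f : Fin (n i + 1) → MvPolynomial (Fin 2) ℂ), 1 ≤ δ ∧
      (∀ b, (f b).IsHomogeneous δ) ∧ (∀ v : Fin 2 → ℂ, v ≠ 0 → ∃ b, eval v (f b) ≠ 0) ∧
      ∀ v : Fin 2 → ℂ, ∀ j ∈ J,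
        val (Function.update x i fun b => eval v (f b)) (P j) = 0 := by
  classical
  set Ji := J.filter fun j => d j i ≠ 0 with hJi
  set c := Ji.card with hc
  let σ : Fin c ≃ Ji := Ji.equivFin.symm
  obtain ⟨a, ha⟩ := Function.ne_iff.1 hx
  have hup : Function.update x i (x i) = x := Function.update_eq_self i x
  obtain ⟨p, q, w, hF, s0, s2, ρ, h0, h2, -, -, hnp⟩ :=
    Pool.Agent.H71.Conic.exists_param (N := n i) (c := c) (fun k => d (σ k) i)
      (fun k => block i x (P (σ k))) (X a)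
      (fun k => block_hom (hP _) i x) (isHomogeneous_X ℂ a)
      (by
        have e1 : ∑ k : Fin c, d (σ k) i = ∑ j ∈ Ji, d j i := by
          rw [← Finset.sum_coe_sort Ji fun j => d j i]
          exact Fintype.sum_equiv σ _ _ fun _ => rfl
        rw [e1]
        exact (Finset.sum_le_sum_of_subset (Finset.filter_subset _ _)).trans hsum)
      hcard (x i)
      (fun k => by
        rw [eval_block, hup]
        exact h _ (Finset.mem_filter.1 (σ k).2).1)
      (by rw [eval_X]; exact ha)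
  obtain ⟨δ, f, hδ, hf, hnv, hgen⟩ := exists_forms p q w a
    (fun s hs => by
      have := (hF s hs).1
      rwa [eval_X] at this) s0 s2 h0 h2 hnp
  refine ⟨δ, f, hδ, hf, hnv, ?_⟩
  intro v j hj
  by_cases hj0 : d j i = 0
  · rw [val_congr (hP j) _ x, h j hj]
    intro l hl
    rw [Function.update_of_ne]
    rintro rfl
    exact hl hj0
  · have hjJi : j ∈ Ji := Finset.mem_filter.2 ⟨hj, hj0⟩
    -- the polynomial vanishes identically
    have hzero : bind₁ f (block i x (P j)) = 0 := by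
      apply funext_set (fun _ => ({0}ᶜ : Set ℂ)) (fun _ => (Set.finite_singleton 0).infinite_compl)
      intro u hu
      have hu0 : u 0 ≠ 0 := hu 0 (Set.mem_univ _)
      have hu1 : u 1 ≠ 0 := hu 1 (Set.mem_univ _)
      obtain ⟨s, c', hs, -, he⟩ := hgen u hu0 hu1
      have e1 : eval u (bind₁ f (block i x (P j))) =
          eval (fun b => eval u (f b)) (block i x (P j)) := by
        have := aeval_bind₁ (R := ℂ) (S := ℂ) u f (block i x (P j))
        simpa only [← coe_aeval_eq_eval, RingHom.coe_coe] using this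
      rw [e1, he, eval_block, val_update_smul (hP j), ← eval_block]
      have h5 := (hF s hs).2 (σ.symm ⟨j, hjJi⟩)
      rw [Equiv.apply_symm_apply] at h5
      rw [h5, mul_zero, map_zero]
    have e1 : eval v (bind₁ f (block i x (P j))) =
        eval (fun b => eval v (f b)) (block i x (P j)) := by
      have := aeval_bind₁ (R := ℂ) (S := ℂ) v f (block i x (P j))
      simpa only [← coe_aeval_eq_eval, RingHom.coe_coe] using this
    rw [← eval_block, ← e1, hzero, map_zero]

end Pool.Agent.H88.Abund
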