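import Mathlib

/-!
# Maximal minors of an `N × (N+1)` matrix
-/

set_option autoImplicit false

open MvPolynomial

namespace Pool.Agent.H88.Abund

/-- the signed maximal minors -/
def mnr {R : Type*} [CommRing R] {N : ℕ} (M : Matrix (Fin N) (Fin (N + 1)) R) : Fin (N + 1) → R :=
  fun a => (-1) ^ (a : ℕ) * (M.submatrix id a.succAbove).det

lemma mulVec_mnr {R : Type*} [CommRing R] {N : ℕ} (M : Matrix (Fin N) (Fin (N + 1)) R)
    (k : Fin N) : ∑ a, M k a * mnr M a = 0 := by
  set A : Matrix (Fin (N + 1)) (Fin (N + 1)) R := Matrix.of (Fin.cons (M k) M) with hA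
  have h1 : A.det = 0 := by
    apply Matrix.det_zero_of_row_eq (i := 0) (j := k.succ) (Fin.succ_ne_zero k).symm
    rfl
  rw [Matrix.det_succ_row_zero] at h1
  rw [← h1]
  refine Finset.sum_congr rfl fun a _ => ?_
  unfold mnr
  have e1 : A 0 a = M k a := rfl
  have e2 : A.submatrix Fin.succ a.succAbove = M.submatrix id a.succAbove := by
    ext i j
    rfl
  rw [e1, e2]
  ring

section field

variable {K : Type*} [Field K] {N : ℕ} (M : Matrix (Fin N) (Fin (N + 1)) K)

lemma ker_eq_zero (a : Fin (N + 1)) (ha : mnr M a ≠ 0) (y : Fin (N + 1) → K)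
    (hy : ∀ k, ∑ b, M k b * y b = 0) (hya : y a = 0) : y = 0 := by
  have hdet : (M.submatrix id a.succAbove).det ≠ 0 := by
    intro h
    apply ha
    unfold mnr
    rw [h, mul_zero]
  have h1 : (M.submatrix id a.succAbove).mulVec (fun b => y (a.succAbove b)) = 0 := by
    funext k
    have h2 := hy k
    rw [Fin.sum_univ_succAbove _ a, hya, mul_zero, zero_add] at h2
    exact h2
  have h3 := Matrix.eq_zero_of_mulVec_eq_zero hdet h1
  funext b
  rcases Fin.eq_self_or_eq_succAbove a b with h | ⟨c, h⟩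
  · rw [h, hya]; rfl
  · rw [h]
    exact congrFun h3 c

lemma ker_eq_smul (a : Fin (N + 1)) (ha : mnr M a ≠ 0) (x : Fin (N + 1) → K)
    (hx : ∀ k, ∑ b, M k b * x b = 0) : x = (x a / mnr M a) • mnr M := by
  have h := ker_eq_zero M a ha (x - (x a / mnr M a) • mnr M) (fun k => by
    have e : ∀ b, M k b * (x - (x a / mnr M a) • mnr M) b =
        M k b * x b - (x a / mnr M a) * (M k b * mnr M b) := by
      intro b
      simp only [Pi.sub_apply, Pi.smul_apply, smul_eq_mul]
      ring
    rw [Finset.sum_congr rfl fun b _ => e b, Finset.sum_sub_distrib, ← Finset.mul_sum, hx k,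
      mulVec_mnr, mul_zero, sub_zero])
    (by
      simp only [Pi.sub_apply, Pi.smul_apply, smul_eq_mul]
      rw [div_mul_cancel₀ _ ha, sub_self])
  exact sub_eq_zero.1 h

/-- if all maximal minors vanish there is a line in the kernel -/
lemma exists_line (h : mnr M = 0) : ∃ x y : Fin (N + 1) → K, ∃ a, (∀ k, ∑ b, M k b * x b = 0) ∧
    (∀ k, ∑ b, M k b * y b = 0) ∧ x a ≠ 0 ∧ y a = 0 ∧ y ≠ 0 := by
  obtain ⟨x, hx, hx0⟩ : ∃ x : Fin (N + 1) → K, M.mulVecLin x = 0 ∧ x ≠ 0 := by
    have h1 : Module.finrank K (Fin N → K) < Module.finrank K (Fin (N + 1) → K) := by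
      rw [Module.finrank_fin_fun, Module.finrank_fin_fun]
      omega
    have h2 := LinearMap.ker_ne_bot_of_finrank_lt (f := M.mulVecLin) h1
    obtain ⟨v, hv, hv0⟩ := Submodule.exists_mem_ne_zero_of_ne_bot h2
    exact ⟨v, hv, hv0⟩
  obtain ⟨a, ha⟩ := Function.ne_iff.1 hx0
  have hdet : (M.submatrix id a.succAbove).det = 0 := by
    have h1 := congrFun h a
    unfold mnr at h1
    rcases mul_eq_zero.1 h1 with h2 | h2
    · exact absurd h2 (pow_ne_zero _ (neg_ne_zero.2 one_ne_zero))
    · exact h2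
  obtain ⟨v, hv0, hv⟩ := Matrix.exists_mulVec_eq_zero_iff.2 hdet
  refine ⟨x, a.insertNth (0 : K) v, a, fun k => congrFun hx k, ?_, ha, ?_, ?_⟩
  · intro k
    rw [Fin.sum_univ_succAbove _ a]
    simp only [Fin.insertNth_apply_same, mul_zero, zero_add, Fin.insertNth_apply_succAbove]
    exact congrFun hv k
  · simp
  · intro h0
    apply hv0
    funext b
    have := congrFun h0 (a.succAbove b)
    simpa using this

end field

/-- rows scaled -/
lemma mnr_scale {R : Type*} [CommRing R] {N : ℕ} (M : Matrix (Fin N) (Fin (N + 1)) R)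
    (c : Fin N → R) : mnr (Matrix.of fun k a => c k * M k a) = (∏ k, c k) • mnr M := by
  funext a
  unfold mnr
  have e : (Matrix.of fun k a => c k * M k a).submatrix id a.succAbove =
      Matrix.of fun k b => c k * (M.submatrix id a.succAbove) k b := by
    ext i j; rfl
  rw [e, Matrix.det_mul_column, Pi.smul_apply, smul_eq_mul]
  ring

lemma isHomogeneous_neg_one_pow_mul {P : MvPolynomial (Fin 2) ℂ} {k : ℕ} (h : P.IsHomogeneous k)
    (a : ℕ) : ((-1) ^ a * P).IsHomogeneous k := by
  rcases neg_one_pow_eq_or (MvPolynomial (Fin 2) ℂ) a with e | e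
  · rw [e, one_mul]; exact h
  · rw [e, neg_one_mul]; exact h.neg

lemma isHomogeneous_units_mul {P : MvPolynomial (Fin 2) ℂ} {k : ℕ} (h : P.IsHomogeneous k)
    (u : ℤˣ) : (((u : ℤ) : MvPolynomial (Fin 2) ℂ) * P).IsHomogeneous k := by
  rcases Int.units_eq_one_or u with e | e
  · rw [e, Units.val_one, Int.cast_one, one_mul]; exact h
  · rw [e, Units.val_neg, Units.val_one, Int.cast_neg, Int.cast_one, neg_one_mul]; exact h.neg

/-- degrees of the minors -/
lemma mnr_hom {N : ℕ} (M : Matrix (Fin N) (Fin (N + 1)) (MvPolynomial (Fin 2) ℂ))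
    (e : Fin N → ℕ) (h : ∀ k a, (M k a).IsHomogeneous (e k)) (a : Fin (N + 1)) :
    (mnr M a).IsHomogeneous (∑ k, e k) := by
  have h1 : ((M.submatrix id a.succAbove).det).IsHomogeneous (∑ k, e k) := by
    rw [Matrix.det_apply']
    apply IsHomogeneous.sum
    intro σ _
    have h2 : (∏ i, (M.submatrix id a.succAbove) (σ i) i).IsHomogeneous (∑ k, e k) := by
      have e1 : ∑ k, e k = ∑ i, e (σ i) := (Equiv.sum_comp σ e).symm
      rw [e1]
      exact IsHomogeneous.prod _ _ _ fun i _ => h _ _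
    exact isHomogeneous_units_mul h2 _
  exact isHomogeneous_neg_one_pow_mul h1 _

lemma eval_mnr {N : ℕ} (M : Matrix (Fin N) (Fin (N + 1)) (MvPolynomial (Fin 2) ℂ))
    (v : Fin 2 → ℂ) (a : Fin (N + 1)) :
    eval v (mnr M a) = mnr (Matrix.of fun k b => eval v (M k b)) a := by
  unfold mnr
  rw [map_mul, map_pow, map_neg, map_one, RingHom.map_det]
  rfl

end Pool.Agent.H88.Abund
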