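import Pool.Agent.H88.Abund.Pos
import Pool.Agent.H88.Abund.LinAlg
import Pool.Agent.H71.Conic.General

/-!
# Differentiability of the equations and of the minors
-/

set_option autoImplicit false

open MvPolynomial Filter Topology

namespace Pool.Agent.H88.Abund

variable {g r m : ℕ} {n : Fin r → ℕ}

lemma IsEquation.shift {Λ : Submodule ℤ (VS g)} {φ : Factor Λ} {d : Fin r → ℕ}
    {F : VS g → MvPolynomial (Co n) ℂ} (h : IsEquation φ d F) (l : Λ) (z : VS g) (x : Xs n) :
    val x (F (z + l)) = φ.e l z * val x (F z) := by
  have e : F (z + l) = C (φ.e l z) * F z := by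
    ext α
    rw [coeff_C_mul]
    exact (h.theta α).quasi l z
  rw [e]
  unfold val
  rw [map_mul, eval_C]

lemma IsEquation.differentiable {Λ : Submodule ℤ (VS g)} {φ : Factor Λ} {d : Fin r → ℕ}
    {F : VS g → MvPolynomial (Co n) ℂ} (h : IsEquation φ d F) :
    Differentiable ℂ fun p : VS g × Xs n => val p.2 (F p.1) := by
  classical
  set T : Finset (Co n →₀ ℕ) := Finset.univ.finsuppAntidiag (∑ i, d i) with hT
  have e : (fun p : VS g × Xs n => val p.2 (F p.1)) = fun p =>
      ∑ α ∈ T, coeff α (F p.1) * ∏ i, ∏ a, p.2 i a ^ α ⟨i, a⟩ := by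
    funext p
    rw [val_eq]
    apply Finset.sum_subset
    · intro α hα
      rw [hT, Finset.mem_finsuppAntidiag]
      refine ⟨?_, Finset.subset_univ _⟩
      rw [Fintype.sum_sigma]
      exact Finset.sum_congr rfl fun i _ => h.hom p.1 α (mem_support_iff.1 hα) i
    · intro α _ hα
      rw [notMem_support_iff.1 hα, zero_mul]
  rw [e]
  apply Differentiable.fun_sum
  intro α _
  apply Differentiable.mul
  · exact (h.theta α).holo.comp (g := fun z => coeff α (F z)) (by fun_prop)
  · apply differentiable_prod
    intro i _
    apply differentiable_prod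
    intro a _
    apply Differentiable.pow
    fun_prop

/-- `val` is linear in a block of degree `1` -/
lemma val_linear {d : Fin r → ℕ} {P : MvPolynomial (Co n) ℂ} (hP : IsMultihom d P) (i : Fin r)
    (hi : d i = 1) (x : Xs n) (y : Fin (n i + 1) → ℂ) :
    val (Function.update x i y) P =
      ∑ a, y a * val (Function.update x i (Pi.single a 1)) P := by
  obtain ⟨L, hL⟩ := Pool.Agent.H71.Conic.exists_linearMap (block i x P)
    (by have := block_hom hP i x; rwa [hi] at this)
  have hL' : ∀ y, val (Function.update x i y) P = L y := by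
    intro y
    rw [← eval_block, hL]
  rw [hL']
  have hy : y = ∑ a, y a • (Pi.single a 1 : Fin (n i + 1) → ℂ) := by
    funext b
    rw [Finset.sum_apply]
    simp [Pi.single_apply]
  conv_lhs => rw [hy]
  rw [map_sum]
  refine Finset.sum_congr rfl fun a _ => ?_
  rw [map_smul, hL', smul_eq_mul]

/-- the matrix of coefficients of linear equations -/
noncomputable def mat (F : Fin m → VS g → MvPolynomial (Co n) ℂ) (i : Fin r) {N : ℕ}
    (σ : Fin N → Fin m) (w : VS g × Xs n) : Matrix (Fin N) (Fin (n i + 1)) ℂ :=
  Matrix.of fun k a => val (Function.update w.2 i (Pi.single a 1)) (F (σ k) w.1)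

lemma mat_differentiable {Λ : Submodule ℤ (VS g)} {φ : Fin m → Factor Λ}
    {d : Fin m → Fin r → ℕ} {F : Fin m → VS g → MvPolynomial (Co n) ℂ}
    (hF : ∀ j, IsEquation (φ j) (d j) (F j)) (i : Fin r) {N : ℕ}
    (σ : Fin N → Fin m) (k : Fin N) (a : Fin (n i + 1)) :
    Differentiable ℂ fun w => mat F i σ w k a := by
  have h1 := (hF (σ k)).differentiable
  have h2 : Differentiable ℂ fun w : VS g × Xs n =>
      ((w.1, Function.update w.2 i (Pi.single a 1)) : VS g × Xs n) := by
    apply Differentiable.prodMk
    · exact differentiable_fst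
    · rw [differentiable_pi]
      intro l
      by_cases hl : l = i
      · subst hl
        simp only [Function.update_self]
        exact differentiable_const _
      · simp only [Function.update_of_ne hl]
        fun_prop
  exact h1.comp h2

lemma mnr_differentiable {E : Type*} [NormedAddCommGroup E] [NormedSpace ℂ E] {N : ℕ}
    (M : E → Matrix (Fin N) (Fin (N + 1)) ℂ) (h : ∀ k a, Differentiable ℂ fun w => M w k a)
    (a : Fin (N + 1)) : Differentiable ℂ fun w => mnr (M w) a := by
  unfold mnr
  apply Differentiable.const_mul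
  simp only [Matrix.det_apply']
  apply Differentiable.fun_sum
  intro σ _
  apply Differentiable.const_mul
  apply differentiable_prod
  intro i _
  exact h _ _

end Pool.Agent.H88.Abund
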