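import Pool.Agent.H88.Abund.Diff
import Pool.Agent.H88.Abund.Curve

/-!
# Elimination of a projective space of degree `-1`
-/

set_option autoImplicit false

open MvPolynomial Filter Topology

namespace Pool.Agent.H88.Abund

variable {g r m : ℕ} {n : Fin r → ℕ}

/-- the cone over the variety defined by the equations of `J` in the coordinates of `I` -/
def cone (F : Fin m → VS g → MvPolynomial (Co n) ℂ) (I : Finset (Fin r)) (J : Finset (Fin m)) :
    Set (VS g × Xs n) :=
  {p | (∀ i ∈ I, p.2 i ≠ 0) ∧ ∀ j ∈ J, val p.2 (F j p.1) = 0}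

/-- a rational curve in the variety defined by the equations of `J` in the coordinates of `I` -/
structure IsCurve (F : Fin m → VS g → MvPolynomial (Co n) ℂ) (I : Finset (Fin r))
    (J : Finset (Fin m)) (z : VS g) (δ : Fin r → ℕ)
    (f : ∀ i : Fin r, Fin (n i + 1) → MvPolynomial (Fin 2) ℂ) : Prop where
  hom : ∀ i ∈ I, ∀ a, (f i a).IsHomogeneous (δ i)
  ne : ∀ i ∈ I, ∀ v : Fin 2 → ℂ, v ≠ 0 → ∃ a, eval v (f i a) ≠ 0
  eqn : ∀ j ∈ J, ∀ v : Fin 2 → ℂ, val (fun i a => eval v (f i a)) (F j z) = 0

/-- nonnegativity on all rational curves -/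
def NefOn (F : Fin m → VS g → MvPolynomial (Co n) ℂ) (I : Finset (Fin r))
    (J : Finset (Fin m)) (D : Fin r → ℤ) : Prop :=
  ∀ z δ f, IsCurve F I J z δ f → 0 ≤ ∑ i ∈ I, D i * δ i

lemma cone_mono (F : Fin m → VS g → MvPolynomial (Co n) ℂ) {I I' : Finset (Fin r)}
    {J J' : Finset (Fin m)} (hI : I' ⊆ I) (hJ : J' ⊆ J) : cone F I J ⊆ cone F I' J' :=
  fun _ hp => ⟨fun i hi => hp.1 i (hI hi), fun j hj => hp.2 j (hJ hj)⟩

/-- a curve lying in a fibre over all the other factors -/
lemma vertical {F : Fin m → VS g → MvPolynomial (Co n) ℂ} {I : Finset (Fin r)}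
    {J : Finset (Fin m)} {D : Fin r → ℤ} (h : NefOn F I J D) {i : Fin r} (hi : i ∈ I)
    (hD : D i < 0) (z : VS g) (x : Xs n) (hx : ∀ l ∈ I, l ≠ i → x l ≠ 0) (δ : ℕ) (hδ : 1 ≤ δ)
    (f : Fin (n i + 1) → MvPolynomial (Fin 2) ℂ) (hf : ∀ b, (f b).IsHomogeneous δ)
    (hne : ∀ v : Fin 2 → ℂ, v ≠ 0 → ∃ b, eval v (f b) ≠ 0)
    (heq : ∀ v : Fin 2 → ℂ, ∀ j ∈ J,
      val (Function.update x i fun b => eval v (f b)) (F j z) = 0) : False := by
  classical
  set f' : ∀ l : Fin r, Fin (n l + 1) → MvPolynomial (Fin 2) ℂ :=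
    Function.update (fun l a => C (x l a)) i f with hf'
  have hev : ∀ v : Fin 2 → ℂ, (fun l a => eval v (f' l a)) =
      Function.update x i fun b => eval v (f b) := by
    intro v
    funext l
    by_cases hl : l = i
    · subst hl
      simp only [hf', Function.update_self]
    · simp only [hf', Function.update_of_ne hl, eval_C]
  have hc : IsCurve F I J z (Function.update (fun _ => 0) i δ) f' := by
    refine ⟨?_, ?_, ?_⟩
    · intro l _ a
      by_cases hl : l = i
      · subst hl
        simp only [hf', Function.update_self]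
        exact hf a
      · simp only [hf', Function.update_of_ne hl]
        exact isHomogeneous_C _ _
    · intro l hlI v hv
      by_cases hl : l = i
      · subst hl
        simp only [hf', Function.update_self]
        exact hne v hv
      · simp only [hf', Function.update_of_ne hl, eval_C]
        exact Function.ne_iff.1 (hx l hlI hl)
    · intro j hj v
      rw [hev]
      exact heq v j hj
  have h1 := h z _ f' hc
  rw [Finset.sum_eq_single i] at h1
  · rw [Function.update_self] at h1
    have : D i * (δ : ℤ) < 0 := mul_neg_of_neg_of_pos hD (by exact_mod_cast hδ)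
    omega
  · intro b _ hb
    rw [Function.update_of_ne hb]
    simp
  · intro h; exact absurd hi h

/-- `I`, `J`, `i` and the reindexing `σ` of the equations of degree one in the block `i` -/
structure Lin1 (d : Fin m → Fin r → ℕ) (I : Finset (Fin r)) (J : Finset (Fin m)) (i : Fin r)
    {N : ℕ} (σ : Fin N → Fin m) : Prop where
  mem : ∀ k, σ k ∈ J
  one : ∀ k, d (σ k) i = 1
  inj : Function.Injective σ
  surj : ∀ j ∈ J, d j i ≠ 0 → ∃ k, σ k = j
  out : ∀ j ∈ J, ∀ l ∉ I, d j l = 0

section

variable {Λ : Submodule ℤ (VS g)} {φ : Fin m → Factor Λ} {d : Fin m → Fin r → ℕ}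
  {F : Fin m → VS g → MvPolynomial (Co n) ℂ} {I : Finset (Fin r)} {J : Finset (Fin m)}
  {i : Fin r} {σ : Fin (n i) → Fin m}

/-- a vector in the kernel of the matrix gives solutions of all the equations -/
lemma eqn_of_ker (hF : ∀ j, IsEquation (φ j) (d j) (F j)) (hL : Lin1 d I J i σ)
    (z : VS g) (x : Xs n)
    (hx : ∀ j ∈ J.filter (fun j => d j i = 0), val x (F j z) = 0) (y : Fin (n i + 1) → ℂ)
    (hy : ∀ k, ∑ a, mat F i σ (z, x) k a * y a = 0) (j : Fin m) (hj : j ∈ J) :
    val (Function.update x i y) (F j z) = 0 := by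
  by_cases h0 : d j i = 0
  · rw [val_congr ((hF j).hom z) _ x, hx j (Finset.mem_filter.2 ⟨hj, h0⟩)]
    intro l hl
    rw [Function.update_of_ne]
    rintro rfl
    exact hl h0
  · obtain ⟨k, rfl⟩ := hL.surj j hj h0
    rw [val_linear ((hF _).hom z) i (hL.one k), ← hy k]
    refine Finset.sum_congr rfl fun a _ => ?_
    rw [mul_comm]
    rfl

lemma ker_of_mem_cone (hF : ∀ j, IsEquation (φ j) (d j) (F j)) (hL : Lin1 d I J i σ)
    {w : VS g × Xs n} (hw : w ∈ cone F I J) (k : Fin (n i)) :
    ∑ a, mat F i σ w k a * w.2 i a = 0 := by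
  have h := hw.2 (σ k) (hL.mem k)
  have e := val_linear ((hF (σ k)).hom w.1) i (hL.one k) w.2 (w.2 i)
  rw [Function.update_eq_self, h] at e
  rw [e]
  refine Finset.sum_congr rfl fun a _ => ?_
  rw [mul_comm]
  rfl

lemma mnr_ne_zero (hF : ∀ j, IsEquation (φ j) (d j) (F j)) (hL : Lin1 d I J i σ)
    {D : Fin r → ℤ} (h : NefOn F I J D) (hi : i ∈ I) (hD : D i < 0) {w : VS g × Xs n}
    (hw : w ∈ cone F (I.erase i) (J.filter fun j => d j i = 0)) :
    mnr (mat F i σ w) ≠ 0 := by
  intro h0
  obtain ⟨x, y, a, hx, hy, hxa, hya, hy0⟩ := exists_line _ h0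
  obtain ⟨b, hb⟩ := Function.ne_iff.1 hy0
  refine vertical h hi hD w.1 w.2 (fun l hl hli => hw.1 l (Finset.mem_erase.2 ⟨hli, hl⟩)) 1 le_rfl
    (fun b => C (x b) * X 0 + C (y b) * X 1) ?_ ?_ ?_
  · intro b
    apply IsHomogeneous.add
    · simpa using (isHomogeneous_C (Fin 2) (x b)).mul (isHomogeneous_X ℂ (0 : Fin 2))
    · simpa using (isHomogeneous_C (Fin 2) (y b)).mul (isHomogeneous_X ℂ (1 : Fin 2))
  · intro v hv
    by_cases hv0 : v 0 = 0
    · have hv1 : v 1 ≠ 0 := by
        intro hv1
        apply hv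
        funext i
        fin_cases i
        · exact hv0
        · exact hv1
      refine ⟨b, ?_⟩
      simp only [map_add, map_mul, eval_C, eval_X, hv0, mul_zero, zero_add]
      exact mul_ne_zero hb hv1
    · refine ⟨a, ?_⟩
      simp only [map_add, map_mul, eval_C, eval_X, hya, zero_mul, add_zero]
      exact mul_ne_zero hxa hv0
  · intro v j hj
    refine eqn_of_ker hF hL w.1 w.2 hw.2 _ (fun k => ?_) j hj
    have e : ∀ b, mat F i σ (w.1, w.2) k b * eval v (C (x b) * X 0 + C (y b) * X 1) =
        (mat F i σ w k b * x b) * v 0 + (mat F i σ w k b * y b) * v 1 := by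
      intro b
      simp only [map_add, map_mul, eval_C, eval_X]
      ring
    rw [Finset.sum_congr rfl fun b _ => e b, Finset.sum_add_distrib, ← Finset.sum_mul,
      ← Finset.sum_mul, hx k, hy k, zero_mul, zero_mul, add_zero]

/-- transfer of the nonnegativity -/
lemma nef_transfer (hF : ∀ j, IsEquation (φ j) (d j) (F j)) (hL : Lin1 d I J i σ)
    {D : Fin r → ℤ} (h : NefOn F I J D) (hi : i ∈ I) (hD : D i = -1) :
    NefOn F (I.erase i) (J.filter fun j => d j i = 0)
      (fun l => D l - ∑ k, (d (σ k) l : ℤ)) := by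
  classical
  intro z δ f hc
  set δ0 : Fin r → ℕ := Function.update δ i 0 with hδ0
  set M : Matrix (Fin (n i)) (Fin (n i + 1)) (MvPolynomial (Fin 2) ℂ) :=
    Matrix.of fun k a => comp (Function.update f i fun b => C ((Pi.single a 1 : _ → ℂ) b))
      (F (σ k) z) with hM
  set e : Fin (n i) → ℕ := fun k => ∑ l, δ0 l * d (σ k) l with he
  have hMhom : ∀ k a, (M k a).IsHomogeneous (e k) := by
    intro k a
    apply comp_hom ((hF (σ k)).hom z)
    intro l hl b
    by_cases hli : l = i
    · subst hli
      simp only [Function.update_self, hδ0]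
      exact isHomogeneous_C _ _
    · have hlI : l ∈ I := by
        by_contra hlI
        exact hl (hL.out _ (hL.mem k) l hlI)
      simp only [Function.update_of_ne hli, hδ0]
      exact hc.hom l (Finset.mem_erase.2 ⟨hli, hlI⟩) b
  have hev : ∀ v : Fin 2 → ℂ, (Matrix.of fun k b => eval v (M k b)) =
      mat F i σ (z, fun l a => eval v (f l a)) := by
    intro v
    ext k a
    simp only [hM, Matrix.of_apply, mat]
    rw [eval_comp]
    congr 1
    funext l
    by_cases hli : l = i
    · subst hli
      simp only [Function.update_self, eval_C]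
    · simp only [Function.update_of_ne hli]
  have hcone : ∀ v : Fin 2 → ℂ, v ≠ 0 → (z, fun l a => eval v (f l a)) ∈
      cone F (I.erase i) (J.filter fun j => d j i = 0) := by
    intro v hv
    refine ⟨?_, ?_⟩
    · intro l hl
      obtain ⟨a, ha⟩ := hc.ne l hl v hv
      exact Function.ne_iff.2 ⟨a, ha⟩
    · intro j hj
      exact hc.eqn j hj v
  set f' : ∀ l : Fin r, Fin (n l + 1) → MvPolynomial (Fin 2) ℂ :=
    Function.update f i (mnr M) with hf'
  have hf'ev : ∀ v : Fin 2 → ℂ, (fun l a => eval v (f' l a)) =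
      Function.update (fun l a => eval v (f l a)) i
        (mnr (mat F i σ (z, fun l a => eval v (f l a)))) := by
    intro v
    funext l
    by_cases hli : l = i
    · subst hli
      simp only [hf', Function.update_self]
      funext a
      rw [eval_mnr, hev]
    · simp only [hf', Function.update_of_ne hli]
  have hc' : IsCurve F I J z (Function.update δ i (∑ k, e k)) f' := by
    refine ⟨?_, ?_, ?_⟩
    · intro l hl a
      by_cases hli : l = i
      · subst hli
        simp only [hf', Function.update_self]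
        exact mnr_hom M e hMhom a
      · simp only [hf', Function.update_of_ne hli]
        exact hc.hom l (Finset.mem_erase.2 ⟨hli, hl⟩) a
    · intro l hl v hv
      by_cases hli : l = i
      · subst hli
        have h1 := Function.ne_iff.1 (mnr_ne_zero hF hL h hi (by omega) (hcone v hv))
        obtain ⟨a, ha⟩ := h1
        refine ⟨a, ?_⟩
        have h2 := congrFun (congrFun (hf'ev v) l) a
        simp only [Function.update_self] at h2
        rw [h2]
        exact ha
      · simp only [hf', Function.update_of_ne hli]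
        exact hc.ne l (Finset.mem_erase.2 ⟨hli, hl⟩) v hv
    · intro j hj v
      rw [hf'ev]
      exact eqn_of_ker hF hL z _ (fun j hj => hc.eqn j hj v) _ (fun k => mulVec_mnr _ k) j hj
  have h1 := h z _ f' hc'
  rw [← Finset.add_sum_erase I _ hi, Function.update_self, hD] at h1
  have e1 : ∑ l ∈ I.erase i, D l * ((Function.update δ i (∑ k, e k) l : ℕ) : ℤ) =
      ∑ l ∈ I.erase i, D l * (δ l : ℤ) := by
    refine Finset.sum_congr rfl fun l hl => ?_
    rw [Function.update_of_ne (Finset.ne_of_mem_erase hl)]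
  have e2 : ((∑ k, e k : ℕ) : ℤ) = ∑ l ∈ I.erase i, (∑ k, (d (σ k) l : ℤ)) * (δ l : ℤ) := by
    have e3 : ∀ k, e k = ∑ l ∈ I.erase i, δ l * d (σ k) l := by
      intro k
      rw [he]
      simp only
      rw [← Finset.sum_subset (Finset.subset_univ (I.erase i))]
      · refine Finset.sum_congr rfl fun l hl => ?_
        rw [hδ0, Function.update_of_ne (Finset.ne_of_mem_erase hl)]
      · intro l _ hl
        by_cases hli : l = i
        · rw [hδ0, hli, Function.update_self, zero_mul]
        · have hlI : l ∉ I := fun hlI => hl (Finset.mem_erase.2 ⟨hli, hlI⟩)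
          rw [hL.out _ (hL.mem k) l hlI, mul_zero]
    simp only [e3]
    push_cast
    rw [Finset.sum_comm]
    refine Finset.sum_congr rfl fun l _ => ?_
    rw [Finset.sum_mul]
    refine Finset.sum_congr rfl fun k _ => ?_
    ring
  rw [e1, e2] at h1
  have e4 : ∑ l ∈ I.erase i, (D l - ∑ k, (d (σ k) l : ℤ)) * (δ l : ℤ) =
      ∑ l ∈ I.erase i, D l * (δ l : ℤ) -
        ∑ l ∈ I.erase i, (∑ k, (d (σ k) l : ℤ)) * (δ l : ℤ) := by
    rw [← Finset.sum_sub_distrib]
    refine Finset.sum_congr rfl fun l _ => ?_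
    ring
  rw [e4]
  linarith

end

end Pool.Agent.H88.Abund
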