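import Pool.Agent.H88.Abund.Transfer

/-!
# The engine
-/

set_option autoImplicit false

open MvPolynomial Filter Topology

namespace Pool.Agent.H88.Abund

variable {g r m : ℕ} {n : Fin r → ℕ}

/-- the degrees of the canonical bundle -/
def kap (n : Fin r → ℕ) (d : Fin m → Fin r → ℕ) (J : Finset (Fin m)) (i : Fin r) : ℤ :=
  ∑ j ∈ J, (d j i : ℤ) - (n i : ℤ) - 1

lemma sum_split {d : Fin m → Fin r → ℕ} {I : Finset (Fin r)} {J : Finset (Fin m)} {i : Fin r}
    {N : ℕ} {σ : Fin N → Fin m} (hL : Lin1 d I J i σ) (f : Fin m → ℤ) :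
    ∑ j ∈ J, f j = (∑ j ∈ J.filter (fun j => d j i = 0), f j) + ∑ k, f (σ k) := by
  classical
  rw [← Finset.sum_filter_add_sum_filter_not J (fun j => d j i = 0)]
  congr 1
  have e : J.filter (fun j => ¬ d j i = 0) = Finset.univ.image σ := by
    ext j
    rw [Finset.mem_filter, Finset.mem_image]
    constructor
    · rintro ⟨hj, h0⟩
      obtain ⟨k, hk⟩ := hL.surj j hj h0
      exact ⟨k, Finset.mem_univ _, hk⟩
    · rintro ⟨k, -, rfl⟩
      refine ⟨hL.mem k, ?_⟩
      rw [hL.one k]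
      exact one_ne_zero
  rw [e, Finset.sum_image (fun a _ b _ h => hL.inj h)]

lemma kap_transfer {d : Fin m → Fin r → ℕ} {I : Finset (Fin r)} {J : Finset (Fin m)} {i : Fin r}
    {N : ℕ} {σ : Fin N → Fin m} (hL : Lin1 d I J i σ) (ν : Fin r → ℤ) :
    (fun l => (kap n d J l + ν l) - ∑ k, (d (σ k) l : ℤ)) =
      fun l => kap n d (J.filter fun j => d j i = 0) l + ν l := by
  funext l
  unfold kap
  rw [sum_split hL]
  ring

lemma exists_lin1 (d : Fin m → Fin r → ℕ) (I : Finset (Fin r)) (J : Finset (Fin m)) (i : Fin r)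
    (hout : ∀ j ∈ J, ∀ l ∉ I, d j l = 0) (hsum : ∑ j ∈ J, d j i ≤ n i)
    (hcard : ¬ (J.filter fun j => d j i ≠ 0).card < n i) :
    ∑ j ∈ J, d j i = n i ∧ ∃ σ : Fin (n i) → Fin m, Lin1 d I J i σ := by
  classical
  set Ji := J.filter fun j => d j i ≠ 0 with hJi
  have h1 : ∑ j ∈ Ji, d j i = ∑ j ∈ J, d j i := by
    apply Finset.sum_subset (Finset.filter_subset _ _)
    intro j hj hj'
    by_contra h0
    exact hj' (Finset.mem_filter.2 ⟨hj, h0⟩)
  have h2 : Ji.card ≤ ∑ j ∈ Ji, d j i := by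
    rw [Finset.card_eq_sum_ones]
    apply Finset.sum_le_sum
    intro j hj
    exact Nat.one_le_iff_ne_zero.2 (Finset.mem_filter.1 hj).2
  have h3 : Ji.card = n i := by omega
  have h4 : ∑ j ∈ Ji, d j i = Ji.card := by omega
  have h5 : ∀ j ∈ Ji, d j i = 1 := by
    rw [Finset.card_eq_sum_ones] at h4
    have h6 : ∀ j ∈ Ji, 1 ≤ d j i := fun j hj =>
      Nat.one_le_iff_ne_zero.2 (Finset.mem_filter.1 hj).2
    have h7 := (Finset.sum_eq_sum_iff_of_le h6).1 h4.symm
    exact fun j hj => (h7 j hj).symm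
  refine ⟨by omega, ?_⟩
  set σ : Fin (n i) ≃ Ji := (finCongr h3.symm).trans Ji.equivFin.symm
  refine ⟨fun k => σ k, ⟨?_, ?_, ?_, ?_, hout⟩⟩
  · intro k
    exact (Finset.mem_filter.1 (σ k).2).1
  · intro k
    exact h5 _ (σ k).2
  · intro a b hab
    exact σ.injective (Subtype.ext hab)
  · intro j hj h0
    refine ⟨σ.symm ⟨j, Finset.mem_filter.2 ⟨hj, h0⟩⟩, ?_⟩
    simp only [Equiv.apply_symm_apply]

theorem engine {Λ : Submodule ℤ (VS g)} (φ : Fin m → Factor Λ) (d : Fin m → Fin r → ℕ)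
    (F : Fin m → VS g → MvPolynomial (Co n) ℂ) (hF : ∀ j, IsEquation (φ j) (d j) (F j))
    (hne : ∀ j, ∃ z, F j z ≠ 0) (ψ : Factor Λ) (θ₀ : VS g → ℂ) (hθ₀ : IsTheta ψ θ₀)
    (h₀ : ∃ z, θ₀ z ≠ 0) (q : ℕ) (ν : Fin r → ℤ) (hν : ∀ i, 0 ≤ ν i) :
    ∀ (c : ℕ) (I : Finset (Fin r)) (J : Finset (Fin m)), I.card = c →
      (∀ j ∈ J, ∀ l ∉ I, d j l = 0) → NefOn F I J (fun i => kap n d J i + ν i) →
      ∀ p ∈ cone F I J, ∃ s, IsSec I (cone F I J) Λ
        (fun l z => (ψ.e l z * ∏ j ∈ J, (φ j).e l z ^ q) ^ 2)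
        (fun i => 2 * q * (kap n d J i + ν i)) s ∧ s p ≠ 0 := by
  classical
  intro c
  induction c with
  | zero =>
    intro I J hI _ _ p hp
    rw [Finset.card_eq_zero] at hI
    subst hI
    exact sec_pos φ d F hF hne ψ θ₀ hθ₀ h₀ q ∅ J _ (fun i hi => absurd hi (Finset.notMem_empty i))
      _ p hp.1
  | succ c ih =>
    intro I J hI hout hnef p hp
    by_cases hpos : ∀ i ∈ I, 0 ≤ kap n d J i + ν i
    · exact sec_pos φ d F hF hne ψ θ₀ hθ₀ h₀ q I J _ hpos _ p hp.1
    · push Not at hpos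
      obtain ⟨i, hi, hneg⟩ := hpos
      have hνi := hν i
      have hsum : ∑ j ∈ J, d j i ≤ n i := by
        have h1 : kap n d J i < 0 := by linarith
        unfold kap at h1
        have h2 : ((∑ j ∈ J, d j i : ℕ) : ℤ) = ∑ j ∈ J, (d j i : ℤ) := by push_cast; rfl
        rw [← h2] at h1
        omega
      by_cases hcard : (J.filter fun j => d j i ≠ 0).card < n i
      · exfalso
        obtain ⟨δ, f, hδ, hf, hfne, heq⟩ := fibre_curve (fun j => (hF j).hom p.1) J i p.2
          (hp.1 i hi) hp.2 hsum hcard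
        exact vertical hnef hi hneg p.1 p.2 (fun l hl _ => hp.1 l hl) δ hδ f hf hfne heq
      · obtain ⟨hs, σ, hL⟩ := exists_lin1 d I J i hout hsum hcard
        have hkap : kap n d J i = -1 := by
          unfold kap
          have h2 : ((∑ j ∈ J, d j i : ℕ) : ℤ) = ∑ j ∈ J, (d j i : ℤ) := by push_cast; rfl
          rw [← h2, hs]
          ring
        have hD : kap n d J i + ν i = -1 := by omega
        have hnef' := nef_transfer hF hL hnef hi hD
        have e1 := kap_transfer (n := n) hL ν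
        rw [e1] at hnef'
        have hp' : p ∈ cone F (I.erase i) (J.filter fun j => d j i = 0) :=
          cone_mono F (Finset.erase_subset i I) (Finset.filter_subset _ J) hp
        obtain ⟨s', hs', hs'p⟩ := ih (I.erase i) (J.filter fun j => d j i = 0)
          (by rw [Finset.card_erase_of_mem hi, hI]; rfl)
          (by
            intro j hj l hl
            by_cases hli : l = i
            · rw [hli]
              exact (Finset.mem_filter.1 hj).2
            · exact hout j (Finset.mem_filter.1 hj).1 l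
                fun hlI => hl (Finset.mem_erase.2 ⟨hli, hlI⟩))
          hnef' p hp'
        have e2 : (fun l => 2 * (q : ℤ) * ((kap n d J l + ν l) - ∑ k, (d (σ k) l : ℤ))) =
            fun l => 2 * (q : ℤ) * (kap n d (J.filter fun j => d j i = 0) l + ν l) := by
          funext l
          rw [← congrFun e1 l]
        rw [← e2] at hs'
        obtain ⟨s, hsec, hsp⟩ := sec_transfer hF hL hnef hi hD ψ q s' hs'
        exact ⟨s, hsec, hsp p hp hs'p⟩

end Pool.Agent.H88.Abund
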