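import Pool.Agent.H88.Abund.Engine

/-!
# Sections of `K + N`
-/

set_option autoImplicit false

open MvPolynomial Filter Topology

namespace Pool.Agent.H88.Abund

variable {g r m : ℕ} {n : Fin r → ℕ}

/-- The pairs `(z, x)` of a vector `z` of `ℂ^g` and of homogeneous coordinates `x` such that the
point of `(ℂ^g / Λ) × ∏ P^{n i}` they define satisfies all the equations `F j = 0`. -/
def Coord (F : Fin m → VS g → MvPolynomial (Co n) ℂ) : Set (VS g × Xs n) :=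
  {p | (∀ i, p.2 i ≠ 0) ∧ ∀ j, val p.2 (F j p.1) = 0}

/-- The forms `f i` without common zeros, of degree `δ i`, define a map from the projective line to
`{z} × ∏ P^{n i}` which satisfies all the equations. -/
structure IsRatCurve (F : Fin m → VS g → MvPolynomial (Co n) ℂ) (z : VS g) (δ : Fin r → ℕ)
    (f : ∀ i : Fin r, Fin (n i + 1) → MvPolynomial (Fin 2) ℂ) : Prop where
  hom : ∀ i a, (f i a).IsHomogeneous (δ i)
  ne : ∀ i, ∀ v : Fin 2 → ℂ, v ≠ 0 → ∃ a, eval v (f i a) ≠ 0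
  eqn : ∀ j, ∀ v : Fin 2 → ℂ, val (fun i a => eval v (f i a)) (F j z) = 0

/-- `s` is a holomorphic section over `X`, whose points have the coordinates `S`, of the line bundle
with factor of automorphy `e` on the torus and multidegree `a` on `∏ P^{n i}`. -/
structure IsSection (S : Set (VS g × Xs n)) (Λ : Submodule ℤ (VS g)) (e : Λ → VS g → ℂ)
    (a : Fin r → ℤ) (s : VS g × Xs n → ℂ) : Prop where
  holo : ∀ p ∈ S, ∃ h : VS g × Xs n → ℂ, (∀ᶠ q in 𝓝 p, DifferentiableAt ℂ h q) ∧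
    ∀ᶠ q in 𝓝[S] p, s q = h q
  lat : ∀ l : Λ, ∀ p ∈ S, s (p.1 + l, p.2) = e l p.1 * s p
  scal : ∀ t : Fin r → ℂ, (∀ i, t i ≠ 0) → ∀ p ∈ S,
    s (p.1, fun i => t i • p.2 i) = (∏ i, t i ^ a i) * s p

/-- The multidegree of the canonical bundle of a complete intersection. -/
def canDeg (n : Fin r → ℕ) (d : Fin m → Fin r → ℕ) (i : Fin r) : ℤ :=
  ∑ j, (d j i : ℤ) - (n i : ℤ) - 1

theorem main {Λ : Submodule ℤ (VS g)} (φ : Fin m → Factor Λ) (d : Fin m → Fin r → ℕ)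
    (F : Fin m → VS g → MvPolynomial (Co n) ℂ) (hF : ∀ j, IsEquation (φ j) (d j) (F j))
    (hne : ∀ j, ∃ z, F j z ≠ 0) (ψ : Factor Λ) (θ₀ : VS g → ℂ) (hθ₀ : IsTheta ψ θ₀)
    (h₀ : ∃ z, θ₀ z ≠ 0) (q : ℕ) (ν : Fin r → ℤ) (hν : ∀ i, 0 ≤ ν i)
    (hnef : ∀ z δ f, IsRatCurve F z δ f → 0 ≤ ∑ i, (canDeg n d i + ν i) * (δ i : ℤ))
    (p : VS g × Xs n) (hp : p ∈ Coord F) :
    ∃ s, IsSection (Coord F) Λ (fun l z => (ψ.e l z * ∏ j, (φ j).e l z ^ q) ^ 2)
      (fun i => 2 * q * (canDeg n d i + ν i)) s ∧ s p ≠ 0 := by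
  have hcone : cone F Finset.univ Finset.univ = Coord F := by
    ext w
    simp only [cone, Coord, Finset.mem_univ, true_implies]
  have hn : NefOn F Finset.univ Finset.univ (fun i => kap n d Finset.univ i + ν i) := by
    intro z δ f hc
    exact hnef z δ f ⟨fun i a => hc.hom i (Finset.mem_univ i) a,
      fun i v hv => hc.ne i (Finset.mem_univ i) v hv, fun j v => hc.eqn j (Finset.mem_univ j) v⟩
  obtain ⟨s, hs, hsp⟩ := engine φ d F hF hne ψ θ₀ hθ₀ h₀ q ν hν _ Finset.univ Finset.univ rfl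
    (fun j _ l hl => absurd (Finset.mem_univ l) hl) hn p (hcone ▸ hp)
  rw [hcone] at hs
  exact ⟨s, ⟨hs.holo, hs.lat, hs.scal⟩, hsp⟩

/-- the trivial factor -/
def Factor.one (Λ : Submodule ℤ (VS g)) : Factor Λ := ⟨fun _ => 0, fun _ => 0⟩

lemma Factor.one_e {Λ : Submodule ℤ (VS g)} (l : Λ) (z : VS g) : (Factor.one Λ).e l z = 1 := by
  unfold Factor.e Factor.one
  simp

lemma isTheta_one (Λ : Submodule ℤ (VS g)) : IsTheta (Factor.one Λ) fun _ => 1 :=
  ⟨differentiable_const _, fun l z => by rw [Factor.one_e, one_mul]⟩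

end Pool.Agent.H88.Abund
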