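import Pool.Agent.H88.Abund.Basic

/-!
# Sections when all degrees are nonnegative
-/

set_option autoImplicit false

open MvPolynomial Filter Topology

namespace Pool.Agent.H88.Abund

variable {g r m : ℕ} {n : Fin r → ℕ}

/-- `s` is a holomorphic section over the cone `S` of the line bundle with factor of automorphy
`e` and degrees `a i`, `i ∈ I`, not depending on the other coordinates. -/
structure IsSec (I : Finset (Fin r)) (S : Set (VS g × Xs n)) (Λ : Submodule ℤ (VS g))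
    (e : Λ → VS g → ℂ) (a : Fin r → ℤ) (s : VS g × Xs n → ℂ) : Prop where
  holo : ∀ p ∈ S, ∃ h : VS g × Xs n → ℂ, (∀ᶠ q in 𝓝 p, DifferentiableAt ℂ h q) ∧
    ∀ᶠ q in 𝓝[S] p, s q = h q
  lat : ∀ l : Λ, ∀ p ∈ S, s (p.1 + l, p.2) = e l p.1 * s p
  scal : ∀ t : Fin r → ℂ, (∀ i, t i ≠ 0) → ∀ p ∈ S,
    s (p.1, fun i => t i • p.2 i) = (∏ i ∈ I, t i ^ a i) * s p
  indep : ∀ i ∉ I, ∀ y, ∀ p ∈ S, s (p.1, Function.update p.2 i y) = s p

lemma differentiableAt_prod {ι E : Type*} [NormedAddCommGroup E] [NormedSpace ℂ E]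
    (s : Finset ι) (f : ι → E → ℂ) (x : E) (h : ∀ i ∈ s, DifferentiableAt ℂ (f i) x) :
    DifferentiableAt ℂ (fun y => ∏ i ∈ s, f i y) x := by
  classical
  induction s using Finset.induction_on with
  | empty => simp
  | insert a s ha ih =>
    simp only [Finset.prod_insert ha]
    exact (h a (Finset.mem_insert_self a s)).mul
      (ih fun i hi => h i (Finset.mem_insert_of_mem hi))

lemma differentiable_prod {ι E : Type*} [NormedAddCommGroup E] [NormedSpace ℂ E]
    (s : Finset ι) (f : ι → E → ℂ) (h : ∀ i ∈ s, Differentiable ℂ (f i)) :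
    Differentiable ℂ (fun y => ∏ i ∈ s, f i y) :=
  fun x => differentiableAt_prod s f x fun i hi => h i hi x

lemma eq_zero_of_eventually {θ : VS g → ℂ} (hθ : Differentiable ℂ θ) {a : VS g}
    (h : ∀ᶠ z in 𝓝 a, θ z = 0) (w : VS g) : θ w = 0 := by
  set φ : ℂ → ℂ := fun t => θ (a + t • (w - a)) with hφ
  have hd : Differentiable ℂ φ := by
    apply hθ.comp
    fun_prop
  have hcont : Continuous fun t : ℂ => a + t • (w - a) := by fun_prop
  have h0 : Tendsto (fun t : ℂ => a + t • (w - a)) (𝓝 0) (𝓝 a) := by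
    have := hcont.tendsto 0
    simpa using this
  have hev : ∀ᶠ t in 𝓝 (0 : ℂ), φ t = 0 := h0.eventually h
  have han : AnalyticOnNhd ℂ φ Set.univ := fun t _ => hd.analyticAt t
  have := han.eqOn_zero_of_preconnected_of_eventuallyEq_zero isPreconnected_univ
    (Set.mem_univ 0) hev
  have h1 := this (Set.mem_univ 1)
  simpa [hφ] using h1

lemma exists_shift {θ : VS g → ℂ} (hθ : Differentiable ℂ θ) (h : ∃ w, θ w ≠ 0) (z : VS g) :
    ∃ a, θ (z + a) ≠ 0 ∧ θ (z - a) ≠ 0 := by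
  obtain ⟨w, hw⟩ := h
  by_contra hcon
  push Not at hcon
  have h1 : ∀ᶠ a in 𝓝 (w - z), θ (z + a) ≠ 0 := by
    have hc : ContinuousAt (fun a => θ (z + a)) (w - z) :=
      (hθ.continuous.comp (continuous_const.add continuous_id)).continuousAt
    apply hc.eventually_ne
    simpa using hw
  have h2 : ∀ᶠ a in 𝓝 (w - z), θ (z - a) = 0 := h1.mono fun a ha => hcon a ha
  have h3 : ∀ᶠ u in 𝓝 (z - (w - z)), θ u = 0 := by
    have ht : Tendsto (fun u : VS g => z - u) (𝓝 (z - (w - z))) (𝓝 (w - z)) := by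
      have hc : Continuous fun u : VS g => z - u := continuous_const.sub continuous_id
      have := hc.tendsto (z - (w - z))
      simpa using this
    have := ht.eventually h2
    simpa using this
  exact hw (eq_zero_of_eventually hθ h3 w)

lemma Factor.e_shift {Λ : Submodule ℤ (VS g)} (φ : Factor Λ) (l : Λ) (z a : VS g) :
    φ.e l (z + a) * φ.e l (z - a) = φ.e l z ^ 2 := by
  unfold Factor.e
  rw [← Complex.exp_add, pow_two, ← Complex.exp_add]
  congr 1
  rw [map_add, map_sub]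
  ring

lemma IsTheta.shift {Λ : Submodule ℤ (VS g)} {φ : Factor Λ} {θ : VS g → ℂ} (h : IsTheta φ θ)
    (a : VS g) (l : Λ) (z : VS g) : θ (z + l + a) * θ (z + l - a) =
      φ.e l z ^ 2 * (θ (z + a) * θ (z - a)) := by
  have e1 : z + l + a = (z + a) + l := by abel
  have e2 : z + l - a = (z - a) + l := by abel
  rw [e1, e2, h.quasi, h.quasi, ← φ.e_shift l z a]
  ring

theorem sec_pos {Λ : Submodule ℤ (VS g)} (φ : Fin m → Factor Λ) (d : Fin m → Fin r → ℕ)
    (F : Fin m → VS g → MvPolynomial (Co n) ℂ) (hF : ∀ j, IsEquation (φ j) (d j) (F j))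
    (hne : ∀ j, ∃ z, F j z ≠ 0) (ψ : Factor Λ) (θ₀ : VS g → ℂ) (hθ₀ : IsTheta ψ θ₀)
    (h₀ : ∃ z, θ₀ z ≠ 0) (q : ℕ) (I : Finset (Fin r)) (J : Finset (Fin m)) (D : Fin r → ℤ)
    (hD : ∀ i ∈ I, 0 ≤ D i) (S : Set (VS g × Xs n)) (p : VS g × Xs n)
    (hp : ∀ i ∈ I, p.2 i ≠ 0) :
    ∃ s, IsSec I S Λ (fun l z => (ψ.e l z * ∏ j ∈ J, (φ j).e l z ^ q) ^ 2)
      (fun i => 2 * q * D i) s ∧ s p ≠ 0 := by
  obtain ⟨a₀, ha₀, ha₀'⟩ := exists_shift hθ₀.holo h₀ p.1
  have hα : ∀ j, ∃ α, ∃ z, coeff α (F j z) ≠ 0 := by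
    intro j
    obtain ⟨z, hz⟩ := hne j
    obtain ⟨α, hα⟩ := ne_zero_iff.1 hz
    exact ⟨α, z, hα⟩
  choose α hα using hα
  have hsh : ∀ j, ∃ a, coeff (α j) (F j (p.1 + a)) ≠ 0 ∧ coeff (α j) (F j (p.1 - a)) ≠ 0 :=
    fun j => exists_shift ((hF j).theta (α j)).holo (hα j) p.1
  choose b hb hb' using hsh
  have hk : ∀ i, ∃ k : Fin (n i + 1), i ∈ I → p.2 i k ≠ 0 := by
    intro i
    by_cases hi : i ∈ I
    · obtain ⟨k, hk⟩ := Function.ne_iff.1 (hp i hi)
      exact ⟨k, fun _ => hk⟩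
    · exact ⟨0, fun h => absurd h hi⟩
  choose k hk using hk
  set N : Fin r → ℕ := fun i => (2 * q * D i).toNat with hN
  have hN' : ∀ i ∈ I, ((N i : ℕ) : ℤ) = 2 * q * D i := by
    intro i hi
    rw [hN]
    apply Int.toNat_of_nonneg
    have := hD i hi
    positivity
  set s : VS g × Xs n → ℂ := fun w => (θ₀ (w.1 + a₀) * θ₀ (w.1 - a₀)) *
    (∏ j ∈ J, (coeff (α j) (F j (w.1 + b j)) * coeff (α j) (F j (w.1 - b j))) ^ q) *
    ∏ i ∈ I, w.2 i (k i) ^ N i with hs
  refine ⟨s, ⟨?_, ?_, ?_, ?_⟩, ?_⟩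
  · intro w _
    refine ⟨s, Eventually.of_forall fun w => ?_, Eventually.of_forall fun w => rfl⟩
    have t0 : Differentiable ℂ fun w : VS g × Xs n => θ₀ (w.1 + a₀) * θ₀ (w.1 - a₀) := by
      apply Differentiable.mul
      · exact hθ₀.holo.comp (by fun_prop)
      · exact hθ₀.holo.comp (by fun_prop)
    have t1 : Differentiable ℂ fun w : VS g × Xs n => ∏ j ∈ J,
        (coeff (α j) (F j (w.1 + b j)) * coeff (α j) (F j (w.1 - b j))) ^ q := by
      apply differentiable_prod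
      intro j _
      apply Differentiable.pow
      apply Differentiable.mul
      · exact ((hF j).theta (α j)).holo.comp (g := fun z => coeff (α j) (F j z)) (by fun_prop)
      · exact ((hF j).theta (α j)).holo.comp (g := fun z => coeff (α j) (F j z)) (by fun_prop)
    have t2 : Differentiable ℂ fun w : VS g × Xs n => ∏ i ∈ I, w.2 i (k i) ^ N i := by
      apply differentiable_prod
      intro i _
      apply Differentiable.pow
      fun_prop
    exact ((t0.mul t1).mul t2) w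
  · intro l w _
    simp only [hs]
    rw [hθ₀.shift a₀ l w.1]
    have e1 : ∏ j ∈ J, (coeff (α j) (F j (w.1 + l + b j)) *
        coeff (α j) (F j (w.1 + l - b j))) ^ q =
        (∏ j ∈ J, (φ j).e l w.1 ^ q) ^ 2 * ∏ j ∈ J, (coeff (α j) (F j (w.1 + b j)) *
        coeff (α j) (F j (w.1 - b j))) ^ q := by
      rw [← Finset.prod_pow, ← Finset.prod_mul_distrib]
      refine Finset.prod_congr rfl fun j _ => ?_
      rw [((hF j).theta (α j)).shift (b j) l w.1]
      ring
    rw [e1]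
    ring
  · intro t ht w _
    simp only [hs]
    have e1 : ∏ i ∈ I, (t i • w.2 i) (k i) ^ N i =
        (∏ i ∈ I, t i ^ (2 * (q : ℤ) * D i)) * ∏ i ∈ I, w.2 i (k i) ^ N i := by
      rw [← Finset.prod_mul_distrib]
      refine Finset.prod_congr rfl fun i hi => ?_
      rw [Pi.smul_apply, smul_eq_mul, mul_pow, ← hN' i hi, zpow_natCast]
    rw [e1]
    ring
  · intro i hi y w _
    simp only [hs]
    congr 1
    refine Finset.prod_congr rfl fun l hl => ?_
    rw [Function.update_of_ne]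
    rintro rfl
    exact hi hl
  · simp only [hs]
    refine mul_ne_zero (mul_ne_zero (mul_ne_zero ha₀ ha₀') ?_) ?_
    · exact Finset.prod_ne_zero_iff.2 fun j _ => pow_ne_zero _ (mul_ne_zero (hb j) (hb' j))
    · exact Finset.prod_ne_zero_iff.2 fun i hi => pow_ne_zero _ (hk i hi)

end Pool.Agent.H88.Abund
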