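import Pool.Agent.H88.Abund.Elim

/-!
# Transfer of sections
-/

set_option autoImplicit false

open MvPolynomial Filter Topology

namespace Pool.Agent.H88.Abund

variable {g r m : ℕ} {n : Fin r → ℕ}

variable {Λ : Submodule ℤ (VS g)} {φ : Fin m → Factor Λ} {d : Fin m → Fin r → ℕ}
  {F : Fin m → VS g → MvPolynomial (Co n) ℂ} {I : Finset (Fin r)} {J : Finset (Fin m)}
  {i : Fin r} {σ : Fin (n i) → Fin m}

open Classical in
/-- the factor of proportionality of the minors and of the coordinates of the block `i` -/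
noncomputable def mu (F : Fin m → VS g → MvPolynomial (Co n) ℂ) (i : Fin r)
    (σ : Fin (n i) → Fin m) (w : VS g × Xs n) : ℂ :=
  if h : ∃ c : ℂ, mnr (mat F i σ w) = c • w.2 i then h.choose else 0

lemma mu_eq {w : VS g × Xs n} (hw : w.2 i ≠ 0) {c : ℂ} (hc : mnr (mat F i σ w) = c • w.2 i) :
    mu F i σ w = c := by
  have h : ∃ c : ℂ, mnr (mat F i σ w) = c • w.2 i := ⟨c, hc⟩
  unfold mu
  rw [dif_pos h]
  have h2 : mnr (mat F i σ w) = h.choose • w.2 i := h.choose_spec
  exact (smul_left_injective ℂ hw (hc.symm.trans h2)).symm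

lemma mu_spec (hF : ∀ j, IsEquation (φ j) (d j) (F j)) (hL : Lin1 d I J i σ)
    {D : Fin r → ℤ} (h : NefOn F I J D) (hi : i ∈ I) (hD : D i = -1) {w : VS g × Xs n}
    (hw : w ∈ cone F I J) : mnr (mat F i σ w) = mu F i σ w • w.2 i ∧ mu F i σ w ≠ 0 := by
  have hwi : w.2 i ≠ 0 := hw.1 i hi
  have hne := mnr_ne_zero hF hL h hi (by omega)
    (cone_mono F (Finset.erase_subset i I) (Finset.filter_subset _ J) hw)
  obtain ⟨a, ha⟩ := Function.ne_iff.1 hne
  have hker := ker_eq_smul _ a ha (w.2 i) (ker_of_mem_cone hF hL hw)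
  have hwa : w.2 i a ≠ 0 := by
    intro h0
    rw [h0, zero_div, zero_smul] at hker
    exact hwi hker
  have hc : mnr (mat F i σ w) = (mnr (mat F i σ w) a / w.2 i a) • w.2 i := by
    have ha' : mnr (mat F i σ w) a ≠ 0 := ha
    funext b
    have h3 := congrFun hker b
    rw [Pi.smul_apply, smul_eq_mul] at h3
    rw [Pi.smul_apply, smul_eq_mul, h3]
    field_simp
  rw [mu_eq hwi hc]
  exact ⟨hc, div_ne_zero ha hwa⟩

lemma prod_split (hL : Lin1 d I J i σ) (f : Fin m → ℂ) :
    ∏ j ∈ J, f j = (∏ j ∈ J.filter (fun j => d j i = 0), f j) * ∏ k, f (σ k) := by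
  classical
  rw [← Finset.prod_filter_mul_prod_filter_not J (fun j => d j i = 0)]
  congr 1
  have e : J.filter (fun j => ¬ d j i = 0) = Finset.univ.image σ := by
    ext j
    rw [Finset.mem_filter, Finset.mem_image]
    constructor
    · rintro ⟨hj, h0⟩
      obtain ⟨k, hk⟩ := hL.surj j hj h0
      exact ⟨k, Finset.mem_univ _, hk⟩
    · rintro ⟨k, -, rfl⟩
      refine ⟨hL.mem k, ?_⟩
      rw [hL.one k]
      exact one_ne_zero
  rw [e, Finset.prod_image (fun a _ b _ h => hL.inj h)]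

lemma mu_lat (hF : ∀ j, IsEquation (φ j) (d j) (F j)) (hL : Lin1 d I J i σ)
    {D : Fin r → ℤ} (h : NefOn F I J D) (hi : i ∈ I) (hD : D i = -1) {w : VS g × Xs n}
    (hw : w ∈ cone F I J) (l : Λ) :
    mu F i σ (w.1 + l, w.2) = (∏ k, (φ (σ k)).e l w.1) * mu F i σ w := by
  have hs := mu_spec hF hL h hi hD hw
  refine mu_eq (w := (w.1 + (l : VS g), w.2)) (hw.1 i hi) ?_
  have e : mat F i σ (w.1 + (l : VS g), w.2) =
      Matrix.of fun k a => (φ (σ k)).e l w.1 * mat F i σ w k a := by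
    ext k a
    exact (hF (σ k)).shift l w.1 _
  rw [e, mnr_scale, hs.1, smul_smul]

lemma mu_scal (hF : ∀ j, IsEquation (φ j) (d j) (F j)) (hL : Lin1 d I J i σ)
    {D : Fin r → ℤ} (h : NefOn F I J D) (hi : i ∈ I) (hD : D i = -1) {w : VS g × Xs n}
    (hw : w ∈ cone F I J) (t : Fin r → ℂ) (ht : ∀ i, t i ≠ 0) :
    mu F i σ (w.1, fun l => t l • w.2 l) =
      (∏ l ∈ I.erase i, t l ^ (∑ k, d (σ k) l)) * (t i)⁻¹ * mu F i σ w := by
  classical
  have hs := mu_spec hF hL h hi hD hw
  refine mu_eq (w := (w.1, fun l => t l • w.2 l)) (smul_ne_zero (ht i) (hw.1 i hi)) ?_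
  have e : mat F i σ (w.1, fun l => t l • w.2 l) =
      Matrix.of fun k a => (∏ l ∈ I.erase i, t l ^ d (σ k) l) * mat F i σ w k a := by
    ext k a
    have h1 := val_smul ((hF (σ k)).hom w.1) (Function.update t i 1)
      (Function.update w.2 i (Pi.single a 1))
    have e1 : (fun l => (Function.update t i 1 : Fin r → ℂ) l •
        (Function.update w.2 i (Pi.single a 1 : Fin (n i + 1) → ℂ)) l) =
        Function.update (fun l => t l • w.2 l) i (Pi.single a 1) := by
      funext l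
      by_cases hl : l = i
      · subst hl
        simp only [Function.update_self, one_smul]
      · simp only [Function.update_of_ne hl]
    have e2 : ∏ l, (Function.update t i 1 : Fin r → ℂ) l ^ d (σ k) l =
        ∏ l ∈ I.erase i, t l ^ d (σ k) l := by
      rw [← Finset.prod_subset (Finset.subset_univ (I.erase i))]
      · refine Finset.prod_congr rfl fun l hl => ?_
        rw [Function.update_of_ne (Finset.ne_of_mem_erase hl)]
      · intro l _ hl
        by_cases hli : l = i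
        · rw [hli, Function.update_self, one_pow]
        · have hlI : l ∉ I := fun hlI => hl (Finset.mem_erase.2 ⟨hli, hlI⟩)
          rw [hL.out _ (hL.mem k) l hlI, pow_zero]
    rw [e1, e2] at h1
    exact h1
  rw [e, mnr_scale, hs.1, Finset.prod_comm]
  simp only [Finset.prod_pow_eq_pow_sum]
  rw [smul_smul, smul_smul]
  congr 1
  have := ht i
  field_simp

lemma mu_indep (hF : ∀ j, IsEquation (φ j) (d j) (F j)) (hL : Lin1 d I J i σ)
    {D : Fin r → ℤ} (h : NefOn F I J D) (hi : i ∈ I) (hD : D i = -1) {w : VS g × Xs n}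
    (hw : w ∈ cone F I J) (l : Fin r) (hl : l ∉ I) (y : Fin (n l + 1) → ℂ) :
    mu F i σ (w.1, Function.update w.2 l y) = mu F i σ w := by
  classical
  have hs := mu_spec hF hL h hi hD hw
  have hli : i ≠ l := fun h => hl (h ▸ hi)
  have e0 : (Function.update w.2 l y) i = w.2 i := Function.update_of_ne hli _ _
  refine mu_eq (w := (w.1, Function.update w.2 l y)) ?_ ?_
  · change (Function.update w.2 l y) i ≠ 0
    rw [e0]
    exact hw.1 i hi
  · change _ = mu F i σ w • (Function.update w.2 l y) i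
    have e : mat F i σ (w.1, Function.update w.2 l y) = mat F i σ w := by
      ext k a
      apply val_congr ((hF (σ k)).hom w.1)
      intro b hb
      by_cases hbi : b = i
      · subst hbi
        simp only [Function.update_self]
      · simp only [Function.update_of_ne hbi]
        have hbl : b ≠ l := by
          rintro rfl
          exact hb (hL.out _ (hL.mem k) b hl)
        rw [Function.update_of_ne hbl]
    rw [e, e0]
    exact hs.1

lemma mu_holo (hF : ∀ j, IsEquation (φ j) (d j) (F j)) (hL : Lin1 d I J i σ)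
    {D : Fin r → ℤ} (h : NefOn F I J D) (hi : i ∈ I) (hD : D i = -1) {p : VS g × Xs n}
    (hp : p ∈ cone F I J) :
    ∃ h : VS g × Xs n → ℂ, (∀ᶠ q in 𝓝 p, DifferentiableAt ℂ h q) ∧
      ∀ᶠ q in 𝓝[cone F I J] p, mu F i σ q = h q := by
  obtain ⟨a, ha⟩ := Function.ne_iff.1 (hp.1 i hi)
  have hc : ∀ᶠ q : VS g × Xs n in 𝓝 p, q.2 i a ≠ 0 := by
    have : ContinuousAt (fun q : VS g × Xs n => q.2 i a) p := by fun_prop
    exact this.eventually_ne ha
  refine ⟨fun w => mnr (mat F i σ w) a / w.2 i a, ?_, ?_⟩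
  · refine hc.mono fun q hq => ?_
    have h1 : DifferentiableAt ℂ (fun w => mnr (mat F i σ w) a) q :=
      mnr_differentiable (fun w => mat F i σ w) (fun k b => mat_differentiable hF i σ k b) a q
    have h2 : DifferentiableAt ℂ (fun w : VS g × Xs n => (w.2 i a)⁻¹) q := by
      have h3 : DifferentiableAt ℂ (fun w : VS g × Xs n => w.2 i a) q := by fun_prop
      exact (differentiableAt_inv hq).comp q h3
    simp only [div_eq_mul_inv]
    exact h1.mul h2
  · filter_upwards [self_mem_nhdsWithin, nhdsWithin_le_nhds hc] with q hq hqa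
    have hs := mu_spec hF hL h hi hD hq
    have h1 := congrFun hs.1 a
    rw [Pi.smul_apply, smul_eq_mul] at h1
    rw [h1, mul_div_cancel_right₀ _ hqa]

theorem sec_transfer (hF : ∀ j, IsEquation (φ j) (d j) (F j)) (hL : Lin1 d I J i σ)
    {D : Fin r → ℤ} (h : NefOn F I J D) (hi : i ∈ I) (hD : D i = -1) (ψ : Factor Λ) (q : ℕ)
    (s' : VS g × Xs n → ℂ)
    (hs' : IsSec (I.erase i) (cone F (I.erase i) (J.filter fun j => d j i = 0)) Λ
      (fun l z => (ψ.e l z * ∏ j ∈ J.filter (fun j => d j i = 0), (φ j).e l z ^ q) ^ 2)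
      (fun l => 2 * q * (D l - ∑ k, (d (σ k) l : ℤ))) s') :
    ∃ s, IsSec I (cone F I J) Λ (fun l z => (ψ.e l z * ∏ j ∈ J, (φ j).e l z ^ q) ^ 2)
      (fun l => 2 * q * D l) s ∧ ∀ p ∈ cone F I J, s' p ≠ 0 → s p ≠ 0 := by
  classical
  have hsub := cone_mono F (Finset.erase_subset i I) (Finset.filter_subset (fun j => d j i = 0) J)
  refine ⟨fun w => s' w * mu F i σ w ^ (2 * q), ⟨?_, ?_, ?_, ?_⟩, ?_⟩
  · intro p hp
    obtain ⟨h1, h1d, h1e⟩ := hs'.holo p (hsub hp)
    obtain ⟨h2, h2d, h2e⟩ := mu_holo hF hL h hi hD hp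
    refine ⟨fun w => h1 w * h2 w ^ (2 * q), ?_, ?_⟩
    · filter_upwards [h1d, h2d] with w e1 e2
      exact e1.mul (e2.pow _)
    · filter_upwards [nhdsWithin_mono p hsub h1e, h2e] with w e1 e2
      rw [e1, e2]
  · intro l p hp
    rw [hs'.lat l p (hsub hp), mu_lat hF hL h hi hD hp l, prod_split hL]
    have e : ∏ k, (φ (σ k)).e l p.1 ^ q = (∏ k, (φ (σ k)).e l p.1) ^ q := Finset.prod_pow _ _ _
    rw [e]
    ring
  · intro t ht p hp
    rw [hs'.scal t ht p (hsub hp), mu_scal hF hL h hi hD hp t ht,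
      ← Finset.mul_prod_erase I _ hi, hD]
    have e1 : ∏ l ∈ I.erase i, t l ^ (2 * (q : ℤ) * D l) =
        (∏ l ∈ I.erase i, t l ^ (2 * (q : ℤ) * (D l - ∑ k, (d (σ k) l : ℤ)))) *
          (∏ l ∈ I.erase i, t l ^ (∑ k, d (σ k) l)) ^ (2 * q) := by
      rw [← Finset.prod_pow, ← Finset.prod_mul_distrib]
      refine Finset.prod_congr rfl fun l _ => ?_
      rw [← pow_mul, ← zpow_natCast, ← zpow_add₀ (ht l)]
      congr 1
      push_cast
      ring
    have e2 : t i ^ (2 * (q : ℤ) * -1) = (t i)⁻¹ ^ (2 * q) := by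
      rw [inv_pow, ← zpow_natCast, ← zpow_neg]
      congr 1
      push_cast
      ring
    rw [e1, e2]
    ring
  · intro l hl y p hp
    have hl' : l ∉ I.erase i := fun h => hl (Finset.mem_of_mem_erase h)
    rw [hs'.indep l hl' y p (hsub hp), mu_indep hF hL h hi hD hp l hl y]
  · intro p hp hne
    exact mul_ne_zero hne (pow_ne_zero _ (mu_spec hF hL h hi hD hp).2)

end Pool.Agent.H88.Abund
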